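import Pool.Agent.Run7.h266.Over

/-!
# Free subsemigroups and actions of bounded tree-width

Let `G` be a finitely presented group in which no two elements generate a free subsemigroup of
rank two, let `S` be a finite generating set and `k` a number. Then there is a normal subgroup `N` of
`G` such that `G ⧸ N` is virtually abelian and `N` acts trivially on every `G`-set whose Schreier
graph has a tree decomposition with bags of at most `k` points. In particular a finitely presented
group which acts faithfully with a Schreier graph of bounded tree-width (for instance by
permutations of bounded displacement of a tree of bounded valency) has a free subsemigroup of rank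
two or is virtually abelian. Finite presentability is needed: the Schreier graphs of Grigorchuk's
group of intermediate growth are lines.

Outline of the proof. Cut a Schreier graph at finite sets, such that a cut meets every path of the
length of a relator which crosses it. If two nested cuts look the same, copies of the piece between
them can be glued along a half-line, and this gives a new action of `G` as the relators hold
locally. If the piece is finite, then for a suitable subgroup `K` of finite index, which depends only
on the look of the cut, each element of `⁅K, K⁆` acts trivially far out; as there is no free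
subsemigroup, `⁅K, K⁆` is finitely generated, so it fixes a point of the new action, and as it is
normal, it fixes all the points of the orbit, in particular the points of the old Schreier graph
which are close enough to the given point. If a piece contains two disjoint cuts which look like its
outer cut, then copies can be glued along a binary tree, and two elements of `G` move the root to its
children, uniformly on the tree; they generate a free semigroup. In a Schreier graph of bounded
tree-width there are always cuts of bounded size that separate a given finite set from a large part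
of the graph, and so one of these cases occurs at each point which has a large orbit.
-/

set_option autoImplicit false

open scoped commutatorElement

namespace Run7.h266.Shelf.BoundedTreeWidth

/-- `G` is finitely presented. -/
def FinitelyPresented (G : Type) [Group G] : Prop :=
  ∃ (n : ℕ) (φ : FreeGroup (Fin n) →* G), Function.Surjective φ ∧
    ∃ R : Finset (FreeGroup (Fin n)),
      Subgroup.normalClosure (R : Set (FreeGroup (Fin n))) = φ.ker

/-- Two elements of `G` freely generate a subsemigroup. -/
def HasFreePair (G : Type) [Group G] : Prop :=
  ∃ a b : G, Function.Injective (FreeSemigroup.lift (![a, b] : Fin 2 → G))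

/-- `G` has an abelian subgroup of finite index. -/
def VirtAbelian (G : Type) [Group G] : Prop :=
  ∃ H : Subgroup G, H.FiniteIndex ∧ ∀ a ∈ H, ∀ b ∈ H, a * b = b * a

/-- The graph with vertex set `Ω` and with edges from `ω` to `s • ω`, `s ∈ S` (the Schreier graph of
the action of `G` on `Ω`), has a tree decomposition with bags of at most `k` points. -/
def BagsAtMost {G : Type} [Group G] (S : Finset G) (k : ℕ) (Ω : Type) [MulAction G Ω] : Prop :=
  ∃ (I : Type) (T : SimpleGraph I) (β : I → Set Ω), T.IsAcyclic ∧ (∀ i, (β i).encard ≤ k) ∧
    (∀ ω, ∃ i, ω ∈ β i) ∧ (∀ s ∈ S, ∀ ω, ∃ i, ω ∈ β i ∧ s • ω ∈ β i) ∧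
    ∀ ω, (T.induce {i | ω ∈ β i}).Preconnected

/-- Let `G` be a group, generated by a finite set `S` and finitely presented, and `k` a number. Then
two elements of `G` generate a free subsemigroup, or there is a normal subgroup `N` with virtually
abelian quotient which acts trivially on all `G`-sets whose Schreier graphs have tree decompositions
with bags of at most `k` points; in the second case `G` itself is virtually abelian if it acts
faithfully on such a set. -/
theorem result (G : Type) [Group G] (hG : FinitelyPresented G) (S : Finset G)
    (hS : Subgroup.closure (S : Set G) = ⊤) (k : ℕ) :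
    HasFreePair G ∨
      ((∃ (N : Subgroup G) (_ : N.Normal), VirtAbelian (G ⧸ N) ∧
        ∀ (Ω : Type) [MulAction G Ω], BagsAtMost S k Ω → ∀ g ∈ N, ∀ ω : Ω, g • ω = ω) ∧
      ∀ (Ω : Type) [MulAction G Ω] [FaithfulSMul G Ω], BagsAtMost S k Ω → VirtAbelian G) := by
  by_cases hfree : HasFreePair G
  · exact Or.inl hfree
  right
  obtain ⟨n, φ, hφ, R, hR⟩ := hG
  have hNF := Run7.h266.not_freePair hfree
  obtain ⟨N, hN, ⟨H, hH, hab⟩, hfix⟩ := Run7.h266.tw_main φ hφ R hR hNF hS
    S.finite_toSet k
  have hfix' : ∀ (Ω : Type) [MulAction G Ω], BagsAtMost S k Ω → ∀ g ∈ N, ∀ ω : Ω, g • ω = ω := by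
    intro Ω _ hΩ
    obtain ⟨I, T, β, h1, h2, h3, h4, h5⟩ := hΩ
    exact hfix Ω I T β ⟨h1, h3, h5⟩ h2 h4
  refine ⟨⟨N, hN, ?_, hfix'⟩, ?_⟩
  · refine ⟨H.map (QuotientGroup.mk' N), ?_, ?_⟩
    · constructor
      have h1 := Subgroup.index_map_dvd H (QuotientGroup.mk'_surjective N)
      exact fun h2 => hH.index_ne_zero (Nat.eq_zero_of_zero_dvd (h2 ▸ h1))
    · rintro _ ⟨a, ha, rfl⟩ _ ⟨b, hb, rfl⟩
      have h1 : QuotientGroup.mk' N ⁅a, b⁆ = 1 := (QuotientGroup.eq_one_iff _).2 (hab a ha b hb)
      rw [map_commutatorElement, commutatorElement_eq_one_iff_mul_comm] at h1
      exact h1
  · intro Ω _ _ hΩ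
    refine ⟨H, hH, fun a ha b hb => ?_⟩
    have h1 : ⁅a, b⁆ = 1 := by
      apply FaithfulSMul.eq_of_smul_eq_smul (α := Ω)
      intro ω
      rw [hfix' Ω hΩ _ (hab a ha b hb), one_smul]
    rwa [commutatorElement_eq_one_iff_mul_comm] at h1

end Run7.h266.Shelf.BoundedTreeWidth
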